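import Pool.Agent.BlockSets.Beta

/-!
The block sets conjecture: for every template there is a degree `d` such that every finite colouring of long
words has a monochromatic block set of degree `d`.
-/

set_option autoImplicit false

namespace Pool.Agent.Results.MP_5949aa_co.AllTemplates

open Pool.Agent.BlockSets

attribute [-instance] Sum.instBEq

/-- `B` is the block set with template `T` and degree `d` in the words of length `N` over `Fin m`, with blocks
`I j` and fixed letters `a i`. -/
def IsBlockSet {m l N : ℕ} (T : Fin l → Fin m) (d : ℕ) (I : Fin l → Finset (Fin N)) (a : Fin N → Fin m)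
    (B : Set (Fin N → Fin m)) : Prop :=
  (∀ j, (I j).card = d) ∧ (Pairwise fun j j' => Disjoint (I j) (I j')) ∧
    B = {w | (∀ i, (∀ j, i ∉ I j) → w i = a i) ∧
      ∃ σ : Equiv.Perm (Fin l), ∀ j, ∀ i ∈ I j, w i = T (σ j)}

/-- A colouring of all words, made of the colourings `c N` of the words of length `N`. -/
noncomputable def col {m k : ℕ} (hk : 0 < k) (c : ∀ N : ℕ, 0 < N → (Fin N → Fin m) → Fin k)
    (w : FreeMonoid (Fin m)) : Fin k :=
  if h : 0 < (FreeMonoid.toList w).length then c _ h (fun i => (FreeMonoid.toList w).get i)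
  else ⟨0, hk⟩

theorem col_ofFn {m k : ℕ} (hk : 0 < k) (c : ∀ N : ℕ, 0 < N → (Fin N → Fin m) → Fin k)
    (w : FreeMonoid (Fin m)) {N : ℕ} (hN : 0 < N) (f : Fin N → Fin m)
    (hw : FreeMonoid.toList w = List.ofFn f) : col hk c w = c N hN f := by
  have hlen : (FreeMonoid.toList w).length = N := by rw [hw, List.length_ofFn]
  subst hlen
  have hf : (fun i => (FreeMonoid.toList w).get i) = f := by
    apply List.ofFn_injective
    rw [← hw]
    exact List.ofFn_get _
  unfold col
  rw [dif_pos hN, hf]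

/-- The statement with the block set given by a word with variables, for a nonempty template. -/
theorem core {m l : ℕ} (hm : 0 < m) (hl : 0 < l) (T : Fin l → Fin m) :
    ∃ d : ℕ, 0 < d ∧ ∀ k : ℕ, 0 < k → ∃ n : ℕ, 0 < n ∧
      ∀ c : (Fin n → Fin m) → Fin k,
        ∃ I : Fin l → Finset (Fin n), ∃ a : Fin n → Fin m, ∃ col : Fin k,
          (∀ j, (I j).card = d) ∧
          (Pairwise fun j j' => Disjoint (I j) (I j')) ∧
          ∀ w : Fin n → Fin m,
            ((∀ i, (∀ j, i ∉ I j) → w i = a i) ∧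
              ∃ σ : Equiv.Perm (Fin l), ∀ j, ∀ i ∈ I j, w i = T (σ j)) →
            c w = col := by
  classical
  obtain ⟨d, hd, z, hz⟩ := exists_ultrafilter T
  refine ⟨d, hd, fun k hk => ?_⟩
  by_contra hcon
  have hbad : ∀ N : ℕ, 0 < N → ∃ c : (Fin N → Fin m) → Fin k,
      ¬ ∃ I : Fin l → Finset (Fin N), ∃ a : Fin N → Fin m, ∃ col : Fin k,
          (∀ j, (I j).card = d) ∧
          (Pairwise fun j j' => Disjoint (I j) (I j')) ∧
          ∀ w : Fin N → Fin m,
            ((∀ i, (∀ j, i ∉ I j) → w i = a i) ∧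
              ∃ σ : Equiv.Perm (Fin l), ∀ j, ∀ i ∈ I j, w i = T (σ j)) →
            c w = col := by
    intro N hN
    by_contra h
    push Not at h
    exact hcon ⟨N, hN, h⟩
  choose c hc using hbad
  obtain ⟨κ, hκ⟩ := Ultrafilter.eq_pure_of_finite (z.map (col hk c))
  have hC : {w | col hk c w = κ} ∈ z := by
    have h1 : ({κ} : Set (Fin k)) ∈ z.map (col hk c) := by
      rw [hκ, Ultrafilter.mem_pure]
      rfl
    exact h1
  obtain ⟨W, hWcnt, hWC⟩ := hz _ hC
  set L : List (Fin m ⊕ Fin l) := FreeMonoid.toList W with hL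
  have hN : 0 < L.length := by
    have h1 : 0 < cnt ⟨0, hl⟩ L := by rw [hWcnt]; exact hd
    exact h1.trans_le List.count_le_length
  refine hc L.length hN ⟨fun j => Finset.univ.filter fun i => L.get i = Sum.inr j,
    fun i => Sum.elim id (fun _ => ⟨0, hm⟩) (L.get i), κ, ?_, ?_, ?_⟩
  · intro j
    rw [← hWcnt j]
    have h1 := Fin.card_filter_univ_eq_vector_get_eq_count (Sum.inr j : Fin m ⊕ Fin l)
      (⟨L, rfl⟩ : List.Vector (Fin m ⊕ Fin l) L.length)
    exact h1
  · intro j j' hjj'
    rw [Finset.disjoint_left]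
    intro i hi hi'
    rw [Finset.mem_filter] at hi hi'
    exact hjj' (Sum.inr.inj (hi.2.symm.trans hi'.2))
  · rintro w ⟨hw, σ, hσ⟩
    have h1 := hWC σ⁻¹
    have h2 : FreeMonoid.toList (evw T σ⁻¹ W) = List.ofFn w := by
      unfold evw
      rw [FreeMonoid.toList_map, inv_inv, ← hL]
      apply List.ext_get
      · simp
      · intro i h1 h2
        simp only [List.get_eq_getElem, List.getElem_map, List.getElem_ofFn]
        have hi : i < L.length := by simpa using h1
        rcases hLi : L[i] with x | j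
        · have h3 := hw ⟨i, hi⟩ (fun j => by
            rw [Finset.mem_filter]
            rintro ⟨_, h4⟩
            rw [List.get_eq_getElem] at h4
            simp only at h4
            rw [hLi] at h4
            exact Sum.inl_ne_inr h4)
          rw [h3]
          simp only [List.get_eq_getElem, hLi]
          rfl
        · have h3 := hσ j ⟨i, hi⟩ (by
            rw [Finset.mem_filter]
            exact ⟨Finset.mem_univ _, hLi⟩)
          rw [h3]
          rfl
    have h3 := col_ofFn hk c _ hN w h2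
    rw [← h3]
    exact h1

/-- Let `m ≥ 1` and let `T` be any template over `Fin m`, of any length `l`, not necessarily monotone. There
is a degree `d ≥ 1`, which depends only on `T`, such that for every number `k` of colours there is `n ≥ 1` such
that for all `N ≥ n` and every colouring of the words of length `N` with `k` colours some block set with
template `T` and degree `d` is monochromatic. -/
theorem result (m l : ℕ) (hm : 0 < m) (T : Fin l → Fin m) :
    ∃ d : ℕ, 0 < d ∧ ∀ k : ℕ, ∃ n : ℕ, 0 < n ∧ ∀ N : ℕ, n ≤ N → ∀ c : (Fin N → Fin m) → Fin k,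
      ∃ (I : Fin l → Finset (Fin N)) (a : Fin N → Fin m) (B : Set (Fin N → Fin m)),
        IsBlockSet T d I a B ∧ ∃ q : Fin k, ∀ w ∈ B, c w = q := by
  classical
  have hmain : ∃ d : ℕ, 0 < d ∧ ∀ k : ℕ, 0 < k → ∃ n : ℕ, 0 < n ∧
      ∀ c : (Fin n → Fin m) → Fin k,
        ∃ I : Fin l → Finset (Fin n), ∃ a : Fin n → Fin m, ∃ col : Fin k,
          (∀ j, (I j).card = d) ∧
          (Pairwise fun j j' => Disjoint (I j) (I j')) ∧
          ∀ w : Fin n → Fin m,
            ((∀ i, (∀ j, i ∉ I j) → w i = a i) ∧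
              ∃ σ : Equiv.Perm (Fin l), ∀ j, ∀ i ∈ I j, w i = T (σ j)) →
            c w = col := by
    rcases Nat.eq_zero_or_pos l with rfl | hl
    · refine ⟨1, one_pos, fun k _ => ⟨1, one_pos, fun c => ⟨fun _ => ∅, fun _ => ⟨0, hm⟩,
        c fun _ => ⟨0, hm⟩, fun j => j.elim0, fun j => j.elim0, ?_⟩⟩⟩
      rintro w ⟨hw, -⟩
      congr 1
      funext i
      exact hw i fun j => j.elim0
    · exact core hm hl T
  obtain ⟨d, hd, hall⟩ := hmain
  refine ⟨d, hd, fun k => ?_⟩
  rcases Nat.eq_zero_or_pos k with rfl | hk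
  · exact ⟨1, one_pos, fun N _ c => (c fun _ => ⟨0, hm⟩).elim0⟩
  obtain ⟨n, hn, hn2⟩ := hall k hk
  refine ⟨n, hn, fun N hN c => ?_⟩
  let ext : (Fin n → Fin m) → (Fin N → Fin m) := fun w i =>
    if h : i.1 < n then w ⟨i.1, h⟩ else ⟨0, hm⟩
  obtain ⟨I, a, q, h1, h2, h3⟩ := hn2 fun w => c (ext w)
  let e : Fin n ↪ Fin N := Fin.castLEEmb hN
  have hmemI : ∀ (j : Fin l) (i : Fin N), i ∈ (I j).map e ↔ ∃ h : i.1 < n, (⟨i.1, h⟩ : Fin n) ∈ I j := by
    intro j i
    rw [Finset.mem_map]
    constructor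
    · rintro ⟨x, hx, rfl⟩
      exact ⟨x.2, hx⟩
    · rintro ⟨h, hx⟩
      exact ⟨⟨i.1, h⟩, hx, rfl⟩
  refine ⟨fun j => (I j).map e, ext a, _, ⟨fun j => ?_, fun j j' hj => ?_, rfl⟩, q, ?_⟩
  · rw [Finset.card_map]
    exact h1 j
  · exact (Finset.disjoint_map e).2 (h2 hj)
  · rintro w ⟨hw, σ, hσ⟩
    have h4 := h3 (fun i => w (e i)) ⟨fun i hi => ?_, σ, fun j i hi => ?_⟩
    · have h5 : ext (fun i => w (e i)) = w := by
        funext i
        by_cases h : i.1 < n
        · change (if h : i.1 < n then w (e ⟨i.1, h⟩) else ⟨0, hm⟩) = w i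
          rw [dif_pos h]
          rfl
        · have h6 := hw i fun j hj => h ((hmemI j i).1 hj).1
          change (if h : i.1 < n then w (e ⟨i.1, h⟩) else ⟨0, hm⟩) = w i
          rw [h6]
          change _ = (if h : i.1 < n then a ⟨i.1, h⟩ else ⟨0, hm⟩)
          rw [dif_neg h, dif_neg h]
      rw [h5] at h4
      exact h4
    · have h6 := hw (e i) fun j hj => hi j ((hmemI j (e i)).1 hj).2
      rw [h6]
      change (if h : (e i).1 < n then a ⟨(e i).1, h⟩ else ⟨0, hm⟩) = a i
      rw [dif_pos (show (e i).1 < n from i.2)]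
      rfl
    · exact hσ j (e i) ((hmemI j (e i)).2 ⟨i.2, hi⟩)

end Pool.Agent.Results.MP_5949aa_co.AllTemplates
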