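import Pool.Agent.MP_5949aa_co.Count

open Finset Pool.Agent.MP_5949aa_co

namespace Pool.Agent.Results.MP_5949aa_co.PrimeDivides

/-- Let `T` be a template (the order of its letters is irrelevant) and `p` a prime such that `T`
has `p` entries, not all equal, and at least `p-1` further entries with letters different from
those of the first `p` entries. If every `k`-colouring of `[m]^n`, where `k ≥ p`, has a
monochromatic block set of degree `d` with template `T`, then `p` divides `d`. -/
theorem result (p : ℕ) (hp : p.Prime) (m l : ℕ) (T : Fin l → Fin m) (J K : Finset (Fin l))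
    (hJ : J.card = p) (hK : p ≤ K.card + 1) (hJK : ∀ i ∈ J, ∀ j ∈ K, T i ≠ T j)
    (hnc : ∃ i ∈ J, ∃ j ∈ J, T i ≠ T j) (k n d : ℕ) (hk : p ≤ k)
    (h : ∀ c : (Fin n → Fin m) → Fin k,
      ∃ I : Fin l → Finset (Fin n), ∃ a : Fin n → Fin m, ∃ col : Fin k,
        (∀ j, (I j).card = d) ∧
        (Pairwise fun j j' => Disjoint (I j) (I j')) ∧
        ∀ w : Fin n → Fin m,
          ((∀ i, (∀ j, i ∉ I j) → w i = a i) ∧
            ∃ σ : Equiv.Perm (Fin l), ∀ j, ∀ i ∈ I j, w i = T (σ j)) →
          c w = col) :
    p ∣ d := by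
  classical
  obtain ⟨K', hK'K, hK'⟩ := exists_subset_card_eq (show p - 1 ≤ K.card by omega)
  -- the varying blocks
  set A : Finset (Fin l) := J ∪ K' with hA
  have hdisj : Disjoint J K' := by
    rw [disjoint_left]
    intro x hx hx'
    exact hJK x hx x (hK'K hx') rfl
  have hAcard : Fintype.card A = 2 * p - 1 := by
    rw [Fintype.card_coe, hA, card_union_of_disjoint hdisj, hJ, hK']
    have := hp.pos
    omega
  let e : Fin p ≃ J := (J.equivFinOfCardEq hJ).symm
  let J' : Fin p ↪ A :=
    ⟨fun s => ⟨(e s).1, mem_union_left _ (e s).2⟩, fun s t hst => by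
      have h1 := congrArg Subtype.val hst
      exact e.injective (Subtype.ext h1)⟩
  have hJ'v : ∀ s, (J' s).1 = (e s).1 := fun _ => rfl
  let f : A → Fin m := fun x => T x.1
  -- the colouring
  obtain ⟨I, a, col, hcard, hpair, hmono⟩ := h fun w =>
    ⟨(occ (fun s => f (J' s)) w).card % p, (Nat.mod_lt _ hp.pos).trans_le hk⟩
  have huniq : ∀ {i : Fin n} {j j' : Fin l}, i ∈ I j → i ∈ I j' → j = j' := by
    intro i j j' hj hj'
    by_contra hne
    exact disjoint_left.mp (hpair hne) hj hj'
  let blk : Fin n → Option A := fun i => if hi : ∃ j : A, i ∈ I j.1 then some hi.choose else none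
  have hblk : ∀ i (j : A), blk i = some j ↔ i ∈ I j.1 := by
    intro i j
    simp only [blk]
    split_ifs with hi
    · constructor
      · intro heq
        rw [← Option.some.inj heq]
        exact hi.choose_spec
      · intro hj
        exact congrArg some (Subtype.ext (huniq hi.choose_spec hj))
    · constructor
      · intro heq; exact absurd heq (by simp)
      · intro hj; exact absurd ⟨j, hj⟩ hi
  let bg : Fin n → Fin m := fun i => if hi : ∃ j, i ∈ I j then T hi.choose else a i
  refine dvd_of_occ_const hp blk bg f hAcard J' ?_ ?_ d ?_ col.1 ?_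
  · rintro ⟨x, hx⟩ hxJ s
    have hxJ' : x ∉ J := by
      intro hcon
      refine hxJ ⟨e.symm ⟨x, hcon⟩, Subtype.ext ?_⟩
      rw [hJ'v, Equiv.apply_symm_apply]
    have hxK : x ∈ K := hK'K ((mem_union.mp hx).resolve_left hxJ')
    exact (hJK _ (e s).2 x hxK).symm
  · obtain ⟨i, hi, j, hj, hij⟩ := hnc
    refine ⟨e.symm ⟨i, hi⟩, e.symm ⟨j, hj⟩, ?_⟩
    simp only [f, hJ'v, Equiv.apply_symm_apply]
    exact hij
  · intro j
    rw [← hcard j.1]
    congr 1
    ext i
    simp [hblk]
  · intro σ
    have hw := hmono (word blk bg f σ) ⟨?_, Equiv.Perm.ofSubtype σ, ?_⟩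
    · rw [← hw]
      exact (Nat.mod_modEq _ _).symm
    · intro i hi
      have hn : blk i = none := by
        cases hb : blk i with
        | none => rfl
        | some j => exact absurd ((hblk i j).mp hb) (hi j.1)
      have hno : ¬ ∃ j, i ∈ I j := by
        rintro ⟨j, hj⟩; exact hi j hj
      simp only [word, hn, Option.elim_none, bg, dif_neg hno]
    · intro j i hij
      by_cases hjA : j ∈ A
      · have hb := (hblk i ⟨j, hjA⟩).mpr hij
        simp only [word, hb, Option.elim_some, f]
        rw [Equiv.Perm.ofSubtype_apply_of_mem σ hjA]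
      · have hn : blk i = none := by
          cases hb : blk i with
          | none => rfl
          | some j' =>
            have := huniq ((hblk i j').mp hb) hij
            exact absurd (this ▸ j'.2) hjA
        have hex : ∃ j, i ∈ I j := ⟨j, hij⟩
        simp only [word, hn, Option.elim_none, bg, dif_pos hex]
        rw [Equiv.Perm.ofSubtype_apply_of_not_mem σ hjA, huniq hex.choose_spec hij]

end Pool.Agent.Results.MP_5949aa_co.PrimeDivides
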